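import Pool.Agent.D0H44.MW.Fe

/-! P2 of the project MW (statement and proof text by helper44): the dual range of the mollified mean square over the
even characters modulo a prime `q`. -/

set_option autoImplicit false
open Complex Filter Topology MeasureTheory Set
open Pool.Agent.H24R2.DZ (cc rr bb MM)
open Pool.Agent.D0H44.MW

namespace Pool.Agent.D0H52.MW

/-! ### Gaussian sums -/

theorem geo_le (u r : ℝ) (hr : r * (1 + u) ≤ u) (hr0 : 0 ≤ r) (N : ℕ) :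
    ∑ m ∈ Finset.Icc 1 N, r ^ m ≤ u * (1 - r ^ N) := by
  induction N with
  | zero => simp
  | succ N ih =>
    rw [Finset.sum_Icc_succ_top (by omega)]
    have h1 : 0 ≤ r ^ N := pow_nonneg hr0 N
    rw [pow_succ]
    nlinarith

theorem gsum_lin (u : ℝ) (hu : 0 < u) (N : ℕ) :
    ∑ m ∈ Finset.Icc 1 N, Real.exp (-(2 * Real.pi * (m : ℝ) ^ 2 / u ^ 2)) ≤ Real.exp (2 * Real.pi) * u := by
  have hpi := Real.pi_gt_three
  obtain ⟨r, hr⟩ : ∃ r, r = Real.exp (-(4 * Real.pi / u)) := ⟨_, rfl⟩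
  have hr0 : 0 ≤ r := by rw [hr]; exact (Real.exp_pos _).le
  have hr1 : r * (1 + u) ≤ u := by
    have h1 : 1 / u + 1 ≤ Real.exp (4 * Real.pi / u) := by
      have h2 := Real.add_one_le_exp (4 * Real.pi / u)
      have h3 : 1 / u ≤ 4 * Real.pi / u := by
        apply div_le_div_of_nonneg_right _ hu.le
        linarith
      linarith
    rw [hr, Real.exp_neg, inv_mul_le_iff₀ (Real.exp_pos _)]
    calc 1 + u = (1 / u + 1) * u := by field_simp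
      _ ≤ Real.exp (4 * Real.pi / u) * u := mul_le_mul_of_nonneg_right h1 hu.le
  have h1 : ∀ m : ℕ, Real.exp (-(2 * Real.pi * (m : ℝ) ^ 2 / u ^ 2)) ≤ Real.exp (2 * Real.pi) * r ^ m := by
    intro m
    rw [hr, ← Real.exp_nat_mul, ← Real.exp_add]
    apply Real.exp_le_exp.mpr
    have h2 : 2 * Real.pi * ((m : ℝ) / u - 1) ^ 2 = 2 * Real.pi * (m : ℝ) ^ 2 / u ^ 2 +
        (2 * Real.pi + m * (-(4 * Real.pi / u))) := by
      field_simp
      ring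
    have h3 : 0 ≤ 2 * Real.pi * ((m : ℝ) / u - 1) ^ 2 := by positivity
    linarith
  calc ∑ m ∈ Finset.Icc 1 N, Real.exp (-(2 * Real.pi * (m : ℝ) ^ 2 / u ^ 2)) ≤
        ∑ m ∈ Finset.Icc 1 N, Real.exp (2 * Real.pi) * r ^ m := Finset.sum_le_sum fun m _ => h1 m
    _ = Real.exp (2 * Real.pi) * ∑ m ∈ Finset.Icc 1 N, r ^ m := by rw [Finset.mul_sum]
    _ ≤ Real.exp (2 * Real.pi) * (u * (1 - r ^ N)) := by
        apply mul_le_mul_of_nonneg_left (geo_le u r hr1 hr0 N) (Real.exp_pos _).le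
    _ ≤ Real.exp (2 * Real.pi) * u := by
        apply mul_le_mul_of_nonneg_left _ (Real.exp_pos _).le
        have : 0 ≤ r ^ N := pow_nonneg hr0 N
        nlinarith

theorem sum_inv_sq_fin (S : Finset ℕ) : ∑ n ∈ S, ((n : ℝ) ^ 2)⁻¹ ≤ 2 :=
  (sum_inv_sq.1.sum_le_tsum S fun n _ => by positivity).trans sum_inv_sq.2

theorem gsum_cub (u : ℝ) (hu : 0 < u) (hu1 : u ≤ 1) (N : ℕ) :
    ∑ m ∈ Finset.Icc 1 N, Real.exp (-(2 * Real.pi * (m : ℝ) ^ 2 / u ^ 2)) ≤ 4 * u ^ 3 := by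
  have h1 : ∀ m ∈ Finset.Icc 1 N, Real.exp (-(2 * Real.pi * (m : ℝ) ^ 2 / u ^ 2)) ≤
      2 * u ^ 3 * ((m : ℝ) ^ 2)⁻¹ := by
    intro m hm
    have hm1 : 1 ≤ m := (Finset.mem_Icc.1 hm).1
    have hm0 : (1 : ℝ) ≤ m := by exact_mod_cast hm1
    have h2 := gauss_pow 2 ((m : ℝ) / u) (by positivity)
    have h3 : Real.exp (-(2 * Real.pi * (m : ℝ) ^ 2 / u ^ 2)) ≤ Real.exp (-(Real.pi * ((m : ℝ) / u) ^ 2)) := by
      apply Real.exp_le_exp.mpr
      have h4 : 2 * Real.pi * (m : ℝ) ^ 2 / u ^ 2 = 2 * (Real.pi * ((m : ℝ) / u) ^ 2) := by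
        field_simp
      have h5 : 0 ≤ Real.pi * ((m : ℝ) / u) ^ 2 := by positivity
      rw [h4]; linarith
    refine h3.trans (h2.trans ?_)
    have h6 : ((Nat.factorial 2 : ℕ) : ℝ) = 2 := by norm_num [Nat.factorial]
    rw [h6]
    have h7 : (2 : ℝ) / ((m : ℝ) / u) ^ (2 * 2) = 2 * u ^ 3 * ((m : ℝ) ^ 2)⁻¹ * (u / (m : ℝ) ^ 2) := by
      simp only [Nat.reduceMul]
      field_simp
    rw [h7]
    apply mul_le_of_le_one_right (by positivity)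
    rw [div_le_one (by positivity)]
    nlinarith
  calc _ ≤ ∑ m ∈ Finset.Icc 1 N, 2 * u ^ 3 * ((m : ℝ) ^ 2)⁻¹ := Finset.sum_le_sum h1
    _ = 2 * u ^ 3 * ∑ m ∈ Finset.Icc 1 N, ((m : ℝ) ^ 2)⁻¹ := by rw [Finset.mul_sum]
    _ ≤ 2 * u ^ 3 * 2 := mul_le_mul_of_nonneg_left (sum_inv_sq_fin _) (by positivity)
    _ = 4 * u ^ 3 := by ring

theorem gsum (u : ℝ) (hu : 0 < u) (N : ℕ) :
    ∑ m ∈ Finset.Icc 1 N, Real.exp (-(2 * Real.pi * (m : ℝ) ^ 2 / u ^ 2)) ≤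
      (Real.exp (2 * Real.pi) + 4) * min u (u ^ 3) := by
  have he := Real.exp_pos (2 * Real.pi)
  rcases le_total u 1 with h | h
  · have h1 : min u (u ^ 3) = u ^ 3 := by
      apply min_eq_right
      calc u ^ 3 ≤ u ^ 1 := pow_le_pow_of_le_one hu.le h (by norm_num)
        _ = u := pow_one u
    rw [h1]
    refine (gsum_cub u hu h N).trans ?_
    have : 0 < u ^ 3 := by positivity
    nlinarith
  · have h1 : min u (u ^ 3) = u := by
      apply min_eq_left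
      calc u = u ^ 1 := (pow_one u).symm
        _ ≤ u ^ 3 := pow_le_pow_right₀ h (by norm_num)
    rw [h1]
    refine (gsum_lin u hu N).trans ?_
    nlinarith

/-! ### The classes of pairs -/

theorem sum_units_le' {ι : Type*} (q : ℕ) [NeZero q] (S : Finset ι) (r : ι → ZMod q) (f : ι → ℝ)
    (hf : ∀ n, 0 ≤ f n) :
    ∑ c : (ZMod q)ˣ, ∑ n ∈ S.filter (fun n => r n = (c : ZMod q)), f n ≤ ∑ n ∈ S, f n := by
  simp_rw [Finset.sum_filter]
  rw [Finset.sum_comm]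
  refine Finset.sum_le_sum fun n _ => ?_
  by_cases hu : IsUnit (r n)
  · obtain ⟨u, hu⟩ := hu
    rw [Finset.sum_eq_single u]
    · split_ifs
      · exact le_rfl
      · exact hf n
    · intro c _ hc
      rw [if_neg]
      intro h
      exact hc (Units.ext (by rw [← h, hu]))
    · intro h; exact absurd (Finset.mem_univ _) h
  · rw [Finset.sum_eq_zero]
    · exact hf n
    · intro c _
      rw [if_neg]
      intro h
      exact hu (h ▸ Units.isUnit c)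

/-- The set of pairs `(h, l)`, `h ≤ y`, `l ≤ ρ h`. -/
def PS (y ρ : ℕ) : Finset (ℕ × ℕ) :=
  (Finset.Icc 1 y ×ˢ Finset.Icc 1 (ρ * y)).filter (fun i => i.2 ≤ ρ * i.1)

theorem mem_PS {y ρ : ℕ} (i : ℕ × ℕ) : i ∈ PS y ρ ↔ (1 ≤ i.1 ∧ i.1 ≤ y) ∧ 1 ≤ i.2 ∧ i.2 ≤ ρ * i.1 := by
  unfold PS
  rw [Finset.mem_filter, Finset.mem_product, Finset.mem_Icc, Finset.mem_Icc]
  constructor
  · rintro ⟨⟨h1, h2⟩, h3⟩
    exact ⟨h1, h2.1, h3⟩
  · rintro ⟨h1, h2, h3⟩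
    exact ⟨⟨h1, h2, h3.trans (Nat.mul_le_mul_left _ h1.2)⟩, h3⟩

theorem sum_PS {M : Type*} [AddCommMonoid M] (y ρ : ℕ) (f : ℕ → ℕ → M) :
    ∑ i ∈ PS y ρ, f i.1 i.2 = ∑ h ∈ Finset.Icc 1 y, ∑ l ∈ Finset.Icc 1 (ρ * h), f h l := by
  rw [Finset.sum_sigma']
  refine Finset.sum_nbij' (fun i => ⟨i.1, i.2⟩) (fun i => (i.1, i.2)) ?_ ?_ ?_ ?_ ?_
  · intro i hi
    rw [mem_PS] at hi
    simp only [Finset.mem_sigma, Finset.mem_Icc]
    exact hi
  · intro i hi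
    simp only [Finset.mem_sigma, Finset.mem_Icc] at hi
    rw [mem_PS]
    exact hi
  · intro i _; rfl
  · intro i _; rfl
  · intro i _; rfl

theorem class_eq {q y ρ : ℕ} (hq : q.Prime) (hρ : ρ * y ^ 2 < q) {i j : ℕ × ℕ} (hi : i ∈ PS y ρ) (hj : j ∈ PS y ρ) :
    ((i.1 : ZMod q) * (i.2 : ZMod q)⁻¹ = (j.1 : ZMod q) * (j.2 : ZMod q)⁻¹) ↔ i.1 * j.2 = j.1 * i.2 := by
  have : Fact q.Prime := ⟨hq⟩
  rw [mem_PS] at hi hj
  obtain ⟨⟨hi1, hi2⟩, hi3, hi4⟩ := hi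
  obtain ⟨⟨hj1, hj2⟩, hj3, hj4⟩ := hj
  have hy2 : y ≤ y ^ 2 := Nat.le_self_pow (by norm_num) y
  have hlt : ∀ a b : ℕ, a ≤ y → b ≤ ρ * y → a * b < q := by
    intro a b ha hb
    calc a * b ≤ y * (ρ * y) := Nat.mul_le_mul ha hb
      _ = ρ * y ^ 2 := by ring
      _ < q := hρ
  have hi5 : i.2 ≤ ρ * y := hi4.trans (Nat.mul_le_mul_left _ hi2)
  have hj5 : j.2 ≤ ρ * y := hj4.trans (Nat.mul_le_mul_left _ hj2)
  have hne : ∀ l : ℕ, 1 ≤ l → l ≤ ρ * y → (l : ZMod q) ≠ 0 := by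
    intro l h1 h2 h3
    rw [ZMod.natCast_eq_zero_iff] at h3
    have h4 := Nat.le_of_dvd (by omega) h3
    have h5 : ρ * y ≤ ρ * y ^ 2 := Nat.mul_le_mul_left _ hy2
    omega
  have hi6 := hne _ hi3 hi5
  have hj6 := hne _ hj3 hj5
  constructor
  · intro h
    have h1 : ((i.1 * j.2 : ℕ) : ZMod q) = ((j.1 * i.2 : ℕ) : ZMod q) := by
      push_cast
      field_simp at h
      linear_combination h
    rw [ZMod.natCast_eq_natCast_iff'] at h1
    rwa [Nat.mod_eq_of_lt (hlt _ _ hi2 hj5), Nat.mod_eq_of_lt (hlt _ _ hj2 hi5)] at h1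
  · intro h
    have h1 : ((i.1 * j.2 : ℕ) : ZMod q) = ((j.1 * i.2 : ℕ) : ZMod q) := by rw [h]
    push_cast at h1
    field_simp
    linear_combination h1

theorem class_bound {q y ρ : ℕ} (hq : q.Prime) (hρ : ρ * y ^ 2 < q) (β : ℕ → ℂ) (E : ℕ → ℕ → ℝ)
    (hE : ∀ j h l, 1 ≤ j → E (h * j) (l * j) = E h l) (c : ZMod q) :
    ‖∑ i ∈ (PS y ρ).filter (fun i => (i.1 : ZMod q) * (i.2 : ZMod q)⁻¹ = c), (β i.1 / i.1) * (E i.1 i.2 : ℂ)‖ ^ 2 ≤
      ∑ i ∈ (PS y ρ).filter (fun i => (i.1 : ZMod q) * (i.2 : ZMod q)⁻¹ = c), ‖rr y β i.1‖ ^ 2 * E i.1 i.2 ^ 2 := by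
  rcases ((PS y ρ).filter (fun i => (i.1 : ZMod q) * (i.2 : ZMod q)⁻¹ = c)).eq_empty_or_nonempty with h | ⟨i0, hi0⟩
  · rw [h]; simp
  rw [Finset.mem_filter] at hi0
  obtain ⟨hi0, hc0⟩ := hi0
  obtain ⟨k, m, hcop, hk, hm⟩ := Nat.exists_coprime i0.1 i0.2
  obtain ⟨g, hg⟩ : ∃ g, g = Nat.gcd i0.1 i0.2 := ⟨_, rfl⟩
  rw [← hg] at hk hm
  have hi0' := hi0
  rw [mem_PS] at hi0'
  obtain ⟨⟨a1, a2⟩, a3, a4⟩ := hi0'
  have hg1 : 1 ≤ g := by
    rcases Nat.eq_zero_or_pos g with h | h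
    · rw [h, mul_zero] at hk; omega
    · exact h
  have hk1 : 1 ≤ k := by
    rcases Nat.eq_zero_or_pos k with h | h
    · rw [h, zero_mul] at hk; omega
    · exact h
  have hm1 : 1 ≤ m := by
    rcases Nat.eq_zero_or_pos m with h | h
    · rw [h, zero_mul] at hm; omega
    · exact h
  have hky : k ≤ y := by
    have : k ≤ k * g := Nat.le_mul_of_pos_right k hg1
    omega
  have hmk : m ≤ ρ * k := by
    rw [hm, hk] at a4
    have : m * g ≤ (ρ * k) * g := by rw [mul_assoc]; exact a4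
    exact Nat.le_of_mul_le_mul_right this hg1
  have hp : (k, m) ∈ PS y ρ := by
    rw [mem_PS]; exact ⟨⟨hk1, hky⟩, hm1, hmk⟩
  have hpc : (((k, m) : ℕ × ℕ).1 : ZMod q) * (((k, m) : ℕ × ℕ).2 : ZMod q)⁻¹ = c := by
    rw [← hc0, class_eq hq hρ hp hi0]
    simp only
    rw [hk, hm]; ring
  have hsum : ∑ i ∈ (PS y ρ).filter (fun i => (i.1 : ZMod q) * (i.2 : ZMod q)⁻¹ = c),
      (β i.1 / i.1) * (E i.1 i.2 : ℂ) = rr y β k * (E k m : ℂ) := by
    unfold rr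
    rw [Finset.sum_mul]
    refine Finset.sum_nbij' (fun i => i.1) (fun h => (h, m * (h / k))) ?_ ?_ ?_ ?_ ?_
    · intro i hi
      rw [Finset.mem_filter] at hi ⊢
      obtain ⟨hi, hic⟩ := hi
      rw [← hpc, class_eq hq hρ hi hp] at hic
      rw [mem_PS] at hi
      refine ⟨Finset.mem_Icc.2 hi.1, ?_⟩
      simp only at hic
      exact hcop.dvd_of_dvd_mul_right ⟨i.2, hic⟩
    · intro h hh
      rw [Finset.mem_filter, Finset.mem_Icc] at hh
      obtain ⟨⟨h1, h2⟩, j, hj⟩ := hh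
      have hj1 : 1 ≤ j := by
        rcases Nat.eq_zero_or_pos j with h0 | h0
        · rw [h0, mul_zero] at hj; omega
        · exact h0
      have hdiv : h / k = j := by rw [hj]; exact Nat.mul_div_cancel_left j hk1
      have hmem : ((h, m * (h / k)) : ℕ × ℕ) ∈ PS y ρ := by
        rw [mem_PS, hdiv]
        simp only
        refine ⟨⟨h1, h2⟩, Nat.mul_pos hm1 hj1, ?_⟩
        rw [hj]
        calc m * j ≤ (ρ * k) * j := Nat.mul_le_mul_right j hmk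
          _ = ρ * (k * j) := by ring
      rw [Finset.mem_filter]
      refine ⟨hmem, ?_⟩
      rw [← hpc, class_eq hq hρ hmem hp]
      simp only
      rw [hdiv, hj]; ring
    · intro i hi
      rw [Finset.mem_filter] at hi
      obtain ⟨hi, hic⟩ := hi
      rw [← hpc, class_eq hq hρ hi hp] at hic
      simp only at hic
      obtain ⟨j, hj⟩ := hcop.dvd_of_dvd_mul_right ⟨i.2, hic⟩
      have hdiv : i.1 / k = j := by rw [hj]; exact Nat.mul_div_cancel_left j hk1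
      have : m * j = i.2 := by
        have h2 : k * (m * j) = k * i.2 := by rw [← hic, hj]; ring
        exact Nat.eq_of_mul_eq_mul_left hk1 h2
      ext
      · rfl
      · simp only
        rw [hdiv, this]
    · intro h _; rfl
    · intro i hi
      rw [Finset.mem_filter] at hi
      obtain ⟨hi, hic⟩ := hi
      rw [← hpc, class_eq hq hρ hi hp] at hic
      rw [mem_PS] at hi
      simp only at hic
      obtain ⟨j, hj⟩ := hcop.dvd_of_dvd_mul_right ⟨i.2, hic⟩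
      have h3 : m * j = i.2 := by
        have h2 : k * (m * j) = k * i.2 := by rw [← hic, hj]; ring
        exact Nat.eq_of_mul_eq_mul_left hk1 h2
      have hj1 : 1 ≤ j := by
        rcases Nat.eq_zero_or_pos j with h0 | h0
        · rw [h0, mul_zero] at hj; omega
        · exact h0
      rw [← h3]
      rw [hj, hE j k m hj1]
  rw [hsum, norm_mul, mul_pow, Complex.norm_real, Real.norm_eq_abs, sq_abs]
  exact Finset.single_le_sum (f := fun i : ℕ × ℕ => ‖rr y β i.1‖ ^ 2 * E i.1 i.2 ^ 2)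
    (fun i _ => by positivity) (Finset.mem_filter.2 ⟨hp, hpc⟩)

theorem main_part {q y ρ : ℕ} [NeZero q] (hq : q.Prime) (hρ : ρ * y ^ 2 < q) (β : ℕ → ℂ)
    (E : ℕ → ℕ → ℝ) (hE : ∀ j h l, 1 ≤ j → E (h * j) (l * j) = E h l) :
    ∑ χ : DirichletCharacter ℂ q, ‖∑ h ∈ Finset.Icc 1 y, (β h / h) * χ (h : ZMod q) *
      ∑ l ∈ Finset.Icc 1 (ρ * h), (starRingEnd ℂ) (χ (l : ZMod q)) * (E h l : ℂ)‖ ^ 2 ≤
    Nat.totient q * ∑ k ∈ Finset.Icc 1 y, ‖rr y β k‖ ^ 2 * ∑ m ∈ Finset.Icc 1 (ρ * k), E k m ^ 2 := by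
  have : Fact q.Prime := ⟨hq⟩
  have h1 : ∀ χ : DirichletCharacter ℂ q, ∑ h ∈ Finset.Icc 1 y, (β h / h) * χ (h : ZMod q) *
      ∑ l ∈ Finset.Icc 1 (ρ * h), (starRingEnd ℂ) (χ (l : ZMod q)) * (E h l : ℂ) =
      ∑ i ∈ PS y ρ, χ ((i.1 : ZMod q) * (i.2 : ZMod q)⁻¹) * ((β i.1 / i.1) * (E i.1 i.2 : ℂ)) := by
    intro χ
    rw [sum_PS y ρ (fun h l => χ ((h : ZMod q) * (l : ZMod q)⁻¹) * ((β h / h) * (E h l : ℂ)))]
    refine Finset.sum_congr rfl fun h hh => ?_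
    rw [Finset.mul_sum]
    refine Finset.sum_congr rfl fun l hl => ?_
    rw [Finset.mem_Icc] at hh hl
    have hl0 : (l : ZMod q) ≠ 0 := by
      intro h3
      rw [ZMod.natCast_eq_zero_iff] at h3
      have h4 := Nat.le_of_dvd (by omega) h3
      have h5 : ρ * h ≤ ρ * y ^ 2 := Nat.mul_le_mul_left _ (hh.2.trans (Nat.le_self_pow (by norm_num) y))
      omega
    obtain ⟨u, hu⟩ : IsUnit (l : ZMod q) := isUnit_iff_ne_zero.2 hl0
    rw [← hu, conj_char, map_mul, ← ZMod.inv_coe_unit]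
    ring
  simp_rw [h1]
  rw [orth q (PS y ρ) (fun i => (i.1 : ZMod q) * (i.2 : ZMod q)⁻¹) (fun i => (β i.1 / i.1) * (E i.1 i.2 : ℂ))]
  apply mul_le_mul_of_nonneg_left _ (Nat.cast_nonneg _)
  calc ∑ c : (ZMod q)ˣ, ‖∑ i ∈ (PS y ρ).filter (fun i => (i.1 : ZMod q) * (i.2 : ZMod q)⁻¹ = c),
        (β i.1 / i.1) * (E i.1 i.2 : ℂ)‖ ^ 2 ≤
        ∑ c : (ZMod q)ˣ, ∑ i ∈ (PS y ρ).filter (fun i => (i.1 : ZMod q) * (i.2 : ZMod q)⁻¹ = (c : ZMod q)),
          ‖rr y β i.1‖ ^ 2 * E i.1 i.2 ^ 2 :=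
        Finset.sum_le_sum fun c _ => class_bound hq hρ β E hE c
    _ ≤ ∑ i ∈ PS y ρ, ‖rr y β i.1‖ ^ 2 * E i.1 i.2 ^ 2 :=
        sum_units_le' q (PS y ρ) _ _ fun n => by positivity
    _ = ∑ k ∈ Finset.Icc 1 y, ∑ m ∈ Finset.Icc 1 (ρ * k), ‖rr y β k‖ ^ 2 * E k m ^ 2 :=
        sum_PS y ρ (fun k m => ‖rr y β k‖ ^ 2 * E k m ^ 2)
    _ = _ := by
        refine Finset.sum_congr rfl fun k _ => ?_
        rw [Finset.mul_sum]

/-! ### The tail -/

theorem tail_bound {q : ℕ} (hq : 1 < q) (χ : DirichletCharacter ℂ q) (z R X : ℝ) (hX : 0 < X) (hR : 0 < R)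
    (hz : 0 < z) (K : ℕ) (hK : R / (X * z) ≤ K) :
    ‖th χ X - ∑ l ∈ Finset.Icc 1 K, χ (l : ZMod q) * (ga l X : ℂ)‖ ≤ 12 * (z / R) ^ 4 / X ^ 2 := by
  have hs : Summable (fun n : ℕ => χ (n : ZMod q) * (ga n X : ℂ)) := TS_summable (PG_th hq χ) X hX
  have h1 := hs.sum_add_tsum_nat_add (K + 1)
  have h0 : χ ((0 : ℕ) : ZMod q) = 0 := (PG_th hq χ).zero
  have h2 : ∑ l ∈ Finset.range (K + 1), χ (l : ZMod q) * (ga l X : ℂ) =
      ∑ l ∈ Finset.Icc 1 K, χ (l : ZMod q) * (ga l X : ℂ) := by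
    have : Finset.range (K + 1) = insert 0 (Finset.Icc 1 K) := by
      ext n
      simp only [Finset.mem_range, Finset.mem_insert, Finset.mem_Icc]
      omega
    rw [this, Finset.sum_insert (by simp), h0, zero_mul, zero_add]
  have h3 : th χ X = ∑' n : ℕ, χ (n : ZMod q) * (ga n X : ℂ) := rfl
  rw [h3, ← h1, h2, add_sub_cancel_left]
  have hb : ∀ l : ℕ, ‖χ ((l + (K + 1) : ℕ) : ZMod q) * (ga (l + (K + 1)) X : ℂ)‖ ≤
      (6 * (z / R) ^ 4 / X ^ 2) * (((l + (K + 1) : ℕ) : ℝ) ^ 2)⁻¹ := by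
    intro l
    obtain ⟨n, hn⟩ : ∃ n, n = l + (K + 1) := ⟨_, rfl⟩
    rw [← hn]
    have hn1 : 1 ≤ n := by omega
    have hnK : (K : ℝ) ≤ n := by
      have : K ≤ n := by omega
      exact_mod_cast this
    have hn0 : (0 : ℝ) < n := by exact_mod_cast hn1
    rw [norm_mul, Complex.norm_real, Real.norm_of_nonneg (ga_pos n X).le]
    have h4 := ga_pow 3 n X hn1 hX
    have h5 : ((Nat.factorial 3 : ℕ) : ℝ) = 6 := by norm_num [Nat.factorial]
    rw [h5] at h4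
    have h6 : R / (X * z) ≤ n := hK.trans hnK
    have h7 : 1 / (n * X) ≤ z / R := by
      rw [div_le_div_iff₀ (by positivity) hR]
      rw [div_le_iff₀ (by positivity)] at h6
      linarith
    calc ‖χ (n : ZMod q)‖ * ga n X ≤ 1 * ga n X :=
          mul_le_mul_of_nonneg_right (χ.norm_le_one _) (ga_pos n X).le
      _ ≤ 6 / (n * X) ^ (2 * 3) := by rw [one_mul]; exact h4
      _ = 6 * (1 / (n * X)) ^ 4 / X ^ 2 * ((n : ℝ) ^ 2)⁻¹ := by
          simp only [Nat.reduceMul]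
          field_simp
      _ ≤ 6 * (z / R) ^ 4 / X ^ 2 * ((n : ℝ) ^ 2)⁻¹ := by gcongr
  have hs2 : Summable (fun l : ℕ => (((l + (K + 1) : ℕ) : ℝ) ^ 2)⁻¹) :=
    (summable_nat_add_iff (f := fun n : ℕ => ((n : ℝ) ^ 2)⁻¹) (K + 1)).2 sum_inv_sq.1
  have h8 := tsum_of_norm_bounded ((hs2.mul_left (6 * (z / R) ^ 4 / X ^ 2)).hasSum) hb
  rw [tsum_mul_left] at h8
  have h9 : ∑' l : ℕ, (((l + (K + 1) : ℕ) : ℝ) ^ 2)⁻¹ ≤ 2 := by
    have h10 := sum_inv_sq.1.sum_add_tsum_nat_add (K + 1)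
    have h11 : 0 ≤ ∑ i ∈ Finset.range (K + 1), ((i : ℝ) ^ 2)⁻¹ := Finset.sum_nonneg fun i _ => by positivity
    linarith [sum_inv_sq.2]
  refine h8.trans ?_
  calc 6 * (z / R) ^ 4 / X ^ 2 * ∑' l : ℕ, (((l + (K + 1) : ℕ) : ℝ) ^ 2)⁻¹ ≤ 6 * (z / R) ^ 4 / X ^ 2 * 2 :=
        mul_le_mul_of_nonneg_left h9 (by positivity)
    _ = 12 * (z / R) ^ 4 / X ^ 2 := by ring

theorem card_char (q : ℕ) [NeZero q] : ((Finset.univ : Finset (DirichletCharacter ℂ q)).card : ℝ) = Nat.totient q := by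
  have h := orth q ({()} : Finset Unit) (fun _ => 1) (fun _ => 1)
  simp only [map_one, mul_one, Finset.sum_const, Finset.card_singleton, one_smul, norm_one, one_pow,
    nsmul_eq_mul] at h
  rw [h, Finset.sum_eq_single 1]
  · simp
  · intro c _ hc
    rw [Finset.filter_false_of_mem]
    · simp
    · intro _ _ h1
      apply hc
      apply Units.ext
      rw [← h1, Units.val_one]
  · intro h1; exact absurd (Finset.mem_univ _) h1

/-! ### Assembly -/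

theorem E_hom (q : ℕ) (x : ℝ) (j h l : ℕ) (hj : 1 ≤ j) :
    ga (l * j) (1 / (q * ((h * j : ℕ) : ℝ) * x)) = ga l (1 / (q * (h : ℝ) * x)) := by
  have hj0 : (j : ℝ) ≠ 0 := by
    have : (1 : ℝ) ≤ j := by exact_mod_cast hj
    linarith
  have h1 : (q * ((h * j : ℕ) : ℝ) * x) = (q * h * x) * j := by push_cast; ring
  rw [h1, one_div, mul_inv, one_div]
  unfold ga
  congr 2
  push_cast
  field_simp

theorem pb : S_PB := by
  have hpi := Real.pi_gt_three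
  refine ⟨2 * (Real.exp (2 * Real.pi) + 4) + 73728, by positivity, ?_⟩
  intro q _ hq y β hy hyq hβ x hx hqx
  have : Fact q.Prime := ⟨hq⟩
  have hq1 : 1 < q := hq.one_lt
  have hq0 : (0 : ℝ) < q := by exact_mod_cast hq.pos
  have hy0 : (1 : ℝ) ≤ y := by exact_mod_cast hy
  obtain ⟨z, hzd⟩ : ∃ z : ℝ, z = q * x := ⟨_, rfl⟩
  have hz : 0 < z := by rw [hzd]; positivity
  have hz2 : z ^ 2 ≤ q := by
    have : z ^ 2 = q * (q * x ^ 2) := by rw [hzd]; ring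
    rw [this]; nlinarith
  -- the cut
  have hyq2 : y ^ 2 ≤ q - 1 := by
    rcases Nat.lt_or_ge y 2 with h | h
    · have : y = 1 := by omega
      rw [this]; omega
    · have h1 : y ^ 2 < y ^ 100 := Nat.pow_lt_pow_right (by omega) (by norm_num)
      omega
  obtain ⟨ρ, hρ⟩ : ∃ ρ : ℕ, ρ = (q - 1) / y ^ 2 := ⟨_, rfl⟩
  have hy2 : 0 < y ^ 2 := by positivity
  have hρ1 : ρ * y ^ 2 < q := by
    have : ρ * y ^ 2 ≤ q - 1 := by rw [hρ]; exact Nat.div_mul_le_self _ _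
    omega
  have hρ0 : 1 ≤ ρ := by
    rw [hρ, Nat.one_le_div_iff hy2]; exact hyq2
  have hρ2 : q ≤ 2 * ρ * y ^ 2 := by
    have h1 : q - 1 < y ^ 2 * (ρ + 1) := by rw [hρ]; exact Nat.lt_mul_div_succ _ hy2
    have h2 : y ^ 2 * (ρ + 1) ≤ 2 * ρ * y ^ 2 := by
      have : ρ + 1 ≤ 2 * ρ := by omega
      calc y ^ 2 * (ρ + 1) ≤ y ^ 2 * (2 * ρ) := Nat.mul_le_mul_left _ this
        _ = 2 * ρ * y ^ 2 := by ring
    omega
  have hρr : (0 : ℝ) < ρ := by exact_mod_cast hρ0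
  have hρ3 : (q : ℝ) ≤ 2 * ρ * y ^ 2 := by exact_mod_cast hρ2
  -- main part and tail
  obtain ⟨E, hE⟩ : ∃ E : ℕ → ℕ → ℝ, E = fun (h l : ℕ) => ga l (1 / (q * (h : ℝ) * x)) := ⟨_, rfl⟩
  have hEh : ∀ j h l, 1 ≤ j → E (h * j) (l * j) = E h l := by
    intro j h l hj
    rw [hE]
    exact E_hom q x j h l hj
  obtain ⟨M, hM⟩ : ∃ M : DirichletCharacter ℂ q → ℂ, M = fun χ => ∑ h ∈ Finset.Icc 1 y,
      (β h / h) * χ (h : ZMod q) *
        ∑ l ∈ Finset.Icc 1 (ρ * h), (starRingEnd ℂ) (χ (l : ZMod q)) * (E h l : ℂ) := ⟨_, rfl⟩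
  obtain ⟨Tb, hTb⟩ : ∃ Tb : ℝ, Tb = 12 * (z / ρ) ^ 4 * (y ^ 3 * z ^ 2) := ⟨_, rfl⟩
  have hmain := main_part hq hρ1 β E hEh
  have hFF : ∀ χ ∈ ev q, ‖FF χ y β x‖ ^ 2 ≤ 1 / (q * x ^ 2) * (2 * ‖M χ‖ ^ 2 + 2 * Tb ^ 2) := by
    intro χ hχ
    have hχ1 : χ ≠ 1 ∧ χ.Even := by
      classical
      unfold ev at hχ
      exact (Finset.mem_filter.1 hχ).2
    obtain ⟨ε, he, hfe⟩ := th_fe hq χ hχ1.1 hχ1.2
    have h1 : FF χ y β x = (ε * (Real.sqrt q : ℂ) / ((q * x : ℝ) : ℂ)) *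
        ∑ h ∈ Finset.Icc 1 y, (β h / h) * χ (h : ZMod q) *
          (starRingEnd ℂ) (th χ (1 / (q * (h : ℝ) * x))) := by
      unfold FF
      rw [Finset.mul_sum]
      refine Finset.sum_congr rfl fun h hh => ?_
      have hh1 : 1 ≤ h := (Finset.mem_Icc.1 hh).1
      have hh0 : (0 : ℝ) < h := by exact_mod_cast hh1
      have h2 := hfe (1 / (q * (h : ℝ) * x)) (by positivity)
      have e1 : 1 / (q * (1 / (q * (h : ℝ) * x))) = h * x := by field_simp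
      rw [e1] at h2
      rw [h2]
      push_cast
      have hh0' : (h : ℂ) ≠ 0 := by exact_mod_cast hh0.ne'
      have hq0' : (q : ℂ) ≠ 0 := by exact_mod_cast hq0.ne'
      have hx0' : (x : ℂ) ≠ 0 := by exact_mod_cast hx.ne'
      field_simp
    have h2 : ∑ h ∈ Finset.Icc 1 y, (β h / h) * χ (h : ZMod q) *
          (starRingEnd ℂ) (th χ (1 / (q * (h : ℝ) * x))) =
        M χ + ∑ h ∈ Finset.Icc 1 y, (β h / h) * χ (h : ZMod q) *
          (starRingEnd ℂ) (th χ (1 / (q * (h : ℝ) * x)) -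
            ∑ l ∈ Finset.Icc 1 (ρ * h), χ (l : ZMod q) * (ga l (1 / (q * (h : ℝ) * x)) : ℂ)) := by
      rw [hM, hE]
      simp only
      rw [← Finset.sum_add_distrib]
      refine Finset.sum_congr rfl fun h _ => ?_
      rw [map_sub, map_sum, ← mul_add]
      congr 1
      have : ∀ l : ℕ, (starRingEnd ℂ) (χ (l : ZMod q) * (ga l (1 / (q * (h : ℝ) * x)) : ℂ)) =
          (starRingEnd ℂ) (χ (l : ZMod q)) * (ga l (1 / (q * (h : ℝ) * x)) : ℂ) := by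
        intro l
        rw [map_mul, Complex.conj_ofReal]
      simp_rw [this]
      ring
    have h3 : ‖∑ h ∈ Finset.Icc 1 y, (β h / h) * χ (h : ZMod q) *
          (starRingEnd ℂ) (th χ (1 / (q * (h : ℝ) * x)) -
            ∑ l ∈ Finset.Icc 1 (ρ * h), χ (l : ZMod q) * (ga l (1 / (q * (h : ℝ) * x)) : ℂ))‖ ≤ Tb := by
      calc _ ≤ ∑ h ∈ Finset.Icc 1 y, 12 * (z / ρ) ^ 4 * (y ^ 2 * z ^ 2) := by
            refine (norm_sum_le _ _).trans (Finset.sum_le_sum fun h hh => ?_)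
            rw [Finset.mem_Icc] at hh
            have hh0 : (0 : ℝ) < h := by exact_mod_cast hh.1
            have hhy : (h : ℝ) ≤ y := by exact_mod_cast hh.2
            rw [norm_mul, norm_mul, RCLike.norm_conj]
            have h4 := tail_bound hq1 χ z ρ (1 / (q * (h : ℝ) * x)) (by positivity) hρr hz (ρ * h) (by
              rw [hzd]
              push_cast
              apply le_of_eq
              field_simp)
            have h5 : ‖β h / (h : ℂ)‖ ≤ 1 := by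
              rw [norm_div, Complex.norm_natCast, div_le_one hh0]
              exact hβ h
            have h6 : ‖χ (h : ZMod q)‖ ≤ 1 := χ.norm_le_one _
            have h7 : 12 * (z / ρ) ^ 4 / (1 / (q * (h : ℝ) * x)) ^ 2 = 12 * (z / ρ) ^ 4 * ((h : ℝ) ^ 2 * z ^ 2) := by
              rw [hzd]
              field_simp
            rw [h7] at h4
            calc ‖β h / (h : ℂ)‖ * ‖χ (h : ZMod q)‖ * _ ≤ 1 * 1 * (12 * (z / ρ) ^ 4 * ((h : ℝ) ^ 2 * z ^ 2)) := by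
                  gcongr
              _ ≤ 12 * (z / ρ) ^ 4 * (y ^ 2 * z ^ 2) := by
                  rw [one_mul, one_mul]
                  gcongr
        _ = Tb := by
            rw [Finset.sum_const, Nat.card_Icc, hTb, nsmul_eq_mul]
            push_cast [Nat.add_sub_cancel]
            ring
    rw [h1, h2, norm_mul, mul_pow]
    have h4 : ‖ε * (Real.sqrt q : ℂ) / ((q * x : ℝ) : ℂ)‖ ^ 2 = 1 / (q * x ^ 2) := by
      rw [norm_div, norm_mul, he, one_mul, Complex.norm_real, Complex.norm_real, Real.norm_eq_abs,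
        Real.norm_eq_abs, div_pow, sq_abs, sq_abs, Real.sq_sqrt hq0.le]
      field_simp
    rw [h4]
    apply mul_le_mul_of_nonneg_left _ (by positivity)
    have h5 := norm_add_le (M χ) (∑ h ∈ Finset.Icc 1 y, (β h / h) * χ (h : ZMod q) *
          (starRingEnd ℂ) (th χ (1 / (q * (h : ℝ) * x)) -
            ∑ l ∈ Finset.Icc 1 (ρ * h), χ (l : ZMod q) * (ga l (1 / (q * (h : ℝ) * x)) : ℂ)))
    have h6 : ‖M χ + ∑ h ∈ Finset.Icc 1 y, (β h / h) * χ (h : ZMod q) *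
          (starRingEnd ℂ) (th χ (1 / (q * (h : ℝ) * x)) -
            ∑ l ∈ Finset.Icc 1 (ρ * h), χ (l : ZMod q) * (ga l (1 / (q * (h : ℝ) * x)) : ℂ))‖ ≤ ‖M χ‖ + Tb :=
      h5.trans (by linarith)
    calc _ ≤ (‖M χ‖ + Tb) ^ 2 := pow_le_pow_left₀ (norm_nonneg _) h6 2
      _ ≤ 2 * ‖M χ‖ ^ 2 + 2 * Tb ^ 2 := by nlinarith [sq_nonneg (‖M χ‖ - Tb)]
  have hsum : ∑ χ ∈ ev q, ‖FF χ y β x‖ ^ 2 ≤
      1 / (q * x ^ 2) * (2 * ∑ χ : DirichletCharacter ℂ q, ‖M χ‖ ^ 2 + Nat.totient q * (2 * Tb ^ 2)) := by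
    calc ∑ χ ∈ ev q, ‖FF χ y β x‖ ^ 2 ≤ ∑ χ ∈ ev q, 1 / (q * x ^ 2) * (2 * ‖M χ‖ ^ 2 + 2 * Tb ^ 2) :=
          Finset.sum_le_sum hFF
      _ ≤ ∑ χ : DirichletCharacter ℂ q, 1 / (q * x ^ 2) * (2 * ‖M χ‖ ^ 2 + 2 * Tb ^ 2) :=
          Finset.sum_le_sum_of_subset_of_nonneg (Finset.subset_univ _) fun χ _ _ => by positivity
      _ = _ := by
          rw [← Finset.mul_sum, Finset.sum_add_distrib, ← Finset.mul_sum, Finset.sum_const, nsmul_eq_mul,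
            card_char]
  -- the Gaussian sums
  have hG : ∀ k ∈ Finset.Icc 1 y, ‖rr y β k‖ ^ 2 * ∑ m ∈ Finset.Icc 1 (ρ * k), E k m ^ 2 ≤
      (Real.exp (2 * Real.pi) + 4) * (‖rr y β k‖ ^ 2 * min (q * k * x) ((q * k * x) ^ 3)) := by
    intro k hk
    have hk0 : (0 : ℝ) < k := by exact_mod_cast (Finset.mem_Icc.1 hk).1
    have h1 : ∀ m : ℕ, E k m ^ 2 = Real.exp (-(2 * Real.pi * (m : ℝ) ^ 2 / (q * k * x) ^ 2)) := by
      intro m
      rw [hE]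
      simp only [ga]
      rw [← Real.exp_nat_mul]
      congr 1
      push_cast
      field_simp
    simp_rw [h1]
    have h2 := gsum (q * k * x) (by positivity) (ρ * k)
    calc _ ≤ ‖rr y β k‖ ^ 2 * ((Real.exp (2 * Real.pi) + 4) * min (q * k * x) ((q * k * x) ^ 3)) :=
          mul_le_mul_of_nonneg_left h2 (by positivity)
      _ = _ := by ring
  have hM2 : ∑ χ : DirichletCharacter ℂ q, ‖M χ‖ ^ 2 ≤ Nat.totient q * ((Real.exp (2 * Real.pi) + 4) *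
      ∑ k ∈ Finset.Icc 1 y, ‖rr y β k‖ ^ 2 * min (q * k * x) ((q * k * x) ^ 3)) := by
    rw [hM]
    refine hmain.trans ?_
    apply mul_le_mul_of_nonneg_left _ (Nat.cast_nonneg _)
    rw [Finset.mul_sum]
    exact Finset.sum_le_sum hG
  -- the tail
  have hT2 : 1 / (q * x ^ 2) * Tb ^ 2 ≤ 36864 * (1 / q) := by
    obtain ⟨A, hA⟩ : ∃ A : ℝ, A = (z / ρ) ^ 2 := ⟨_, rfl⟩
    have hA0 : 0 ≤ A := by rw [hA]; positivity
    have hA1 : A ≤ 4 * y ^ 4 / q := by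
      rw [hA, div_pow, div_le_div_iff₀ (by positivity) hq0]
      calc z ^ 2 * q ≤ q * q := mul_le_mul_of_nonneg_right hz2 hq0.le
        _ ≤ (2 * ρ * y ^ 2) * (2 * ρ * y ^ 2) := mul_le_mul hρ3 hρ3 hq0.le (by positivity)
        _ = 4 * y ^ 4 * ρ ^ 2 := by ring
    have h1 : 1 / (q * x ^ 2) * Tb ^ 2 = 144 * A ^ 4 * y ^ 6 * (q * z ^ 2) := by
      rw [hTb, hA, hzd]
      field_simp
      ring
    have hy22 : (y : ℝ) ^ 22 ≤ q := by
      have h2 : y ^ 22 ≤ y ^ 100 := Nat.pow_le_pow_right hy (by norm_num)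
      have h3 : y ^ 22 ≤ q := h2.trans hyq
      exact_mod_cast h3
    rw [h1]
    calc 144 * A ^ 4 * y ^ 6 * (q * z ^ 2) ≤ 144 * (4 * y ^ 4 / q) ^ 4 * y ^ 6 * (q * q) := by gcongr
      _ = 36864 * ((y : ℝ) ^ 22 / q ^ 2) := by
          field_simp
          ring
      _ ≤ 36864 * (q / (q : ℝ) ^ 2) := by gcongr
      _ = 36864 * (1 / q) := by field_simp
  obtain ⟨Sg, hSg⟩ : ∃ Sg : ℝ, Sg = ∑ k ∈ Finset.Icc 1 y,
      ‖rr y β k‖ ^ 2 * min (q * k * x) ((q * k * x) ^ 3) := ⟨_, rfl⟩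
  have hSg0 : 0 ≤ Sg := by
    rw [hSg]
    exact Finset.sum_nonneg fun k _ => by positivity
  rw [← hSg] at hM2 ⊢
  refine hsum.trans ?_
  have hφ : (0 : ℝ) ≤ Nat.totient q := Nat.cast_nonneg _
  obtain ⟨w, hw⟩ : ∃ w : ℝ, w = 1 / (q * x ^ 2) := ⟨_, rfl⟩
  have hw0 : 0 ≤ w := by rw [hw]; positivity
  rw [← hw] at hT2 ⊢
  have he0 := Real.exp_pos (2 * Real.pi)
  obtain ⟨D, hD⟩ : ∃ D : ℝ, D = Real.exp (2 * Real.pi) + 4 := ⟨_, rfl⟩
  have hD0 : 0 ≤ D := by rw [hD]; positivity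
  rw [← hD] at hM2 ⊢
  have hqi : 0 ≤ 1 / (q : ℝ) := by positivity
  calc w * (2 * ∑ χ : DirichletCharacter ℂ q, ‖M χ‖ ^ 2 + Nat.totient q * (2 * Tb ^ 2)) ≤
        w * (2 * (Nat.totient q * (D * Sg)) + Nat.totient q * (2 * Tb ^ 2)) := by gcongr
    _ = Nat.totient q * (2 * D * (w * Sg) + 2 * (w * Tb ^ 2)) := by ring
    _ ≤ Nat.totient q * (2 * D * (w * Sg) + 2 * (36864 * (1 / q))) := by gcongr
    _ ≤ Nat.totient q * ((2 * D + 73728) * (w * Sg + 1 / q)) := by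
        apply mul_le_mul_of_nonneg_left _ hφ
        have h1 : 0 ≤ w * Sg := mul_nonneg hw0 hSg0
        nlinarith [mul_nonneg hD0 hqi]
    _ = _ := by ring

end Pool.Agent.D0H52.MW
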