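import Pool.Agent.D0H44.MW.Stm2
import Pool.Agent.D0H52.MW.Pb

/-! P8a and P8c of the project MW (statements and proof texts by helper44). -/

set_option autoImplicit false
open Complex Filter Topology MeasureTheory Set
open Pool.Agent.H24R2.DZ (cc rr bb MM)
open Pool.Agent.D0H44.MW

namespace Pool.Agent.D0H52.MW

/-- Integrability of the window integrand. -/
theorem win_int {q : ℕ} (χ : DirichletCharacter ℂ q) {a b : ℝ} (ha : 0 < a) (hab : a ≤ b) :
    IntervalIntegrable (fun v => ‖ps χ v‖ ^ 2 / v ^ 2) volume a b := by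
  rw [intervalIntegrable_iff_integrableOn_Ioc_of_le hab]
  obtain ⟨f, hf⟩ : ∃ f : ℕ → ℂ, f = fun N => ∑ n ∈ Finset.Icc 1 N,
      (ArithmeticFunction.vonMangoldt n : ℂ) * χ (n : ZMod q) := ⟨_, rfl⟩
  have hps : ∀ v, ps χ v = f ⌊v⌋₊ := fun v => by rw [hf]; rfl
  obtain ⟨Q, hQ⟩ : ∃ Q : ℝ, Q = ∑ n ∈ Finset.range (⌊b⌋₊ + 1), ‖f n‖ := ⟨_, rfl⟩
  have hQ0 : 0 ≤ Q := by rw [hQ]; exact Finset.sum_nonneg fun _ _ => norm_nonneg _
  have hmeas : Measurable (fun v : ℝ => ‖ps χ v‖ ^ 2 / v ^ 2) := by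
    have h1 : Measurable (fun v : ℝ => ps χ v) := by
      have : (fun v : ℝ => ps χ v) = fun v : ℝ => f ⌊v⌋₊ := funext hps
      rw [this]
      exact (measurable_from_nat (f := f)).comp Nat.measurable_floor
    exact (h1.norm.pow_const 2).div (measurable_id.pow_const 2)
  refine Measure.integrableOn_of_bounded (M := Q ^ 2 / a ^ 2) (by simp) hmeas.aestronglyMeasurable ?_
  rw [ae_restrict_iff' measurableSet_Ioc]
  refine Eventually.of_forall fun v hv => ?_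
  have hv0 : 0 < v := ha.trans hv.1
  rw [Real.norm_of_nonneg (by positivity)]
  have h1 : ‖ps χ v‖ ≤ Q := by
    rw [hps, hQ]
    refine Finset.single_le_sum (f := fun n => ‖f n‖) (fun _ _ => norm_nonneg _) ?_
    rw [Finset.mem_range]
    have := Nat.floor_le_floor hv.2
    omega
  have h2 : a ≤ v := hv.1.le
  gcongr

theorem pigeon (F : ℝ → ℝ) (hF0 : ∀ v, 0 ≤ F v) {x a b X M : ℝ} (hx : 0 < x) (hxa : x ≤ a) (hab : a ≤ b)
    (hbX : b ≤ X) (hF : IntervalIntegrable F volume x X) (h : (∫ v in x..X, F v) < M * Real.log (b / a)) :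
    ∃ v ∈ Icc a b, F v * v ≤ M := by
  by_contra hc
  push Not at hc
  have ha : 0 < a := hx.trans_le hxa
  have hb : 0 < b := ha.trans_le hab
  have hFab : IntervalIntegrable F volume a b := by
    apply hF.mono_set
    rw [uIcc_of_le hab, uIcc_of_le (hxa.trans (hab.trans hbX))]
    exact Icc_subset_Icc hxa hbX
  have h1 : (∫ v in a..b, M * (1 / v)) ≤ ∫ v in a..b, F v := by
    apply intervalIntegral.integral_mono_on hab _ hFab
    · intro v hv
      have hv0 : 0 < v := ha.trans_le hv.1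
      rw [mul_one_div, div_le_iff₀ hv0]
      exact (hc v hv).le
    · apply IntervalIntegrable.const_mul
      apply intervalIntegral.intervalIntegrable_one_div
      · intro v hv
        rw [uIcc_of_le hab] at hv
        exact (ha.trans_le hv.1).ne'
      · exact continuousOn_id
  rw [intervalIntegral.integral_const_mul, integral_one_div_of_pos ha hb] at h1
  have h2 : (∫ v in a..b, F v) ≤ ∫ v in x..X, F v :=
    intervalIntegral.integral_mono_interval hxa hab hbX (Eventually.of_forall hF0) hF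
  linarith

theorem sv (h : S_BASE) : S_V := by
  intro B ε δ hB hε hδ
  obtain ⟨ε1, hε1⟩ : ∃ ε1 : ℝ, ε1 = min ε 1 := ⟨_, rfl⟩
  have e0 : 0 < ε1 := by rw [hε1]; exact lt_min hε one_pos
  have e1 : ε1 ≤ 1 := by rw [hε1]; exact min_le_right _ _
  have e2 : ε1 ≤ ε := by rw [hε1]; exact min_le_left _ _
  obtain ⟨c, hc, q₁, hq₁⟩ := h (B + 2) (ε1 / 2) δ (by linarith) (by linarith) (by linarith) hδ
  obtain ⟨q₂, hq₂⟩ := exists_nat_ge (Real.exp (16 / ε1 + 2 / c + 1))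
  refine ⟨c / 4, by positivity, max q₁ q₂, ?_⟩
  intro q _ hq hq0 x hx hxB S hS hSc
  have hqq1 : q₁ ≤ q := le_trans (le_max_left _ _) hq0
  have hqq2 : (q₂ : ℝ) ≤ q := by exact_mod_cast le_trans (le_max_right _ _) hq0
  have hqpos : (0 : ℝ) < q := by exact_mod_cast hq.pos
  have hq1 : (1 : ℝ) ≤ q := by exact_mod_cast hq.one_lt.le
  obtain ⟨L, hL⟩ : ∃ L : ℝ, L = Real.log q := ⟨_, rfl⟩
  have hLb : 16 / ε1 + 2 / c + 1 ≤ L := by
    rw [hL, Real.le_log_iff_exp_le hqpos]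
    exact hq₂.trans hqq2
  have hc2 : 0 < 2 / c := by positivity
  have he16 : 0 < 16 / ε1 := by positivity
  have hL1 : 1 ≤ L := by linarith
  have hL0 : 0 < L := by linarith
  have hx0 : 0 < x := lt_of_lt_of_le (by positivity) hx
  have hpw : ∀ s : ℝ, 0 < (q : ℝ) ^ s := fun s => Real.rpow_pos_of_pos hqpos s
  have hlog : ∀ s : ℝ, Real.log ((q : ℝ) ^ s) = s * L := fun s => by rw [Real.log_rpow hqpos, hL]
  have hmono : ∀ s t : ℝ, s ≤ t → x * (q : ℝ) ^ s ≤ x * (q : ℝ) ^ t := fun s t hst =>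
    mul_le_mul_of_nonneg_left (Real.rpow_le_rpow_of_exponent_le hq1 hst) hx0.le
  have hxq0 : x * (q : ℝ) ^ (0 : ℝ) = x := by rw [Real.rpow_zero, mul_one]
  obtain ⟨F, hF⟩ : ∃ F : ℝ → ℝ, F = fun v => ∑ χ ∈ S, ‖ps χ v‖ ^ 2 / v ^ 2 := ⟨_, rfl⟩
  have hF0 : ∀ v, 0 ≤ F v := fun v => by rw [hF]; exact Finset.sum_nonneg fun χ _ => by positivity
  obtain ⟨X, hX⟩ : ∃ X : ℝ, X = x * (q : ℝ) ^ (1 + ε) := ⟨_, rfl⟩
  have hxX : x ≤ X := by
    have := hmono 0 (1 + ε) (by linarith)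
    rw [hxq0] at this
    rwa [hX]
  have hFi : ∀ a b : ℝ, 0 < a → a ≤ b → IntervalIntegrable F volume a b := by
    intro a b ha hab
    have h1 := IntervalIntegrable.sum S (f := fun (χ : DirichletCharacter ℂ q) (v : ℝ) => ‖ps χ v‖ ^ 2 / v ^ 2)
      fun χ _ => win_int χ ha hab
    have h2 : F = ∑ χ ∈ S, fun v : ℝ => ‖ps χ v‖ ^ 2 / v ^ 2 := by
      rw [hF]; funext v; rw [Finset.sum_apply]
    rw [h2]; exact h1
  obtain ⟨V, hV⟩ : ∃ V : ℝ, V = ∫ v in x..X, F v := ⟨_, rfl⟩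
  have hV0 : 0 ≤ V := by rw [hV]; exact intervalIntegral.integral_nonneg hxX fun v _ => hF0 v
  have hsumV : ∀ a b : ℝ, 0 < a → a ≤ b → ∑ χ ∈ S, ∫ v in a..b, ‖ps χ v‖ ^ 2 / v ^ 2 = ∫ v in a..b, F v := by
    intro a b ha hab
    rw [hF]
    exact (intervalIntegral.integral_finsetSum fun χ _ => win_int χ ha hab).symm
  rw [← hL, ← hX, hsumV x X hx0 hxX, ← hV]
  obtain ⟨M, hM⟩ : ∃ M : ℝ, M = 8 * (V + 1) / (ε1 * L) := ⟨_, rfl⟩
  have hML : M * (ε1 / 4 * L) = 2 * (V + 1) := by rw [hM]; field_simp; ring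
  -- the two end points
  obtain ⟨Y, hY1, hY2⟩ := pigeon F hF0 (x := x) (a := x) (b := x * (q : ℝ) ^ (ε1 / 4)) (X := X) (M := M) hx0 le_rfl
    (by have := hmono 0 (ε1 / 4) (by linarith); rwa [hxq0] at this)
    (by rw [hX]; exact hmono _ _ (by linarith)) (hFi x X hx0 hxX) (by
      rw [← hV, mul_div_cancel_left₀ _ hx0.ne', hlog, hML]
      linarith)
  obtain ⟨Y', hY'1, hY'2⟩ := pigeon F hF0 (x := x) (a := x * (q : ℝ) ^ (1 + 3 * ε1 / 4))
    (b := x * (q : ℝ) ^ (1 + ε1)) (X := X) (M := M) hx0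
    (by have := hmono 0 (1 + 3 * ε1 / 4) (by linarith); rwa [hxq0] at this)
    (hmono _ _ (by linarith)) (by rw [hX]; exact hmono _ _ (by linarith)) (hFi x X hx0 hxX) (by
      rw [← hV, mul_div_mul_left _ _ hx0.ne', ← Real.rpow_sub hqpos, hlog]
      have : (1 + ε1 - (1 + 3 * ε1 / 4)) * L = ε1 / 4 * L := by ring
      rw [this, hML]
      linarith)
  have hYpos : 0 < Y := hx0.trans_le hY1.1
  have hYY : Y * (q : ℝ) ^ (1 + ε1 / 2) ≤ Y' := by
    calc Y * (q : ℝ) ^ (1 + ε1 / 2) ≤ (x * (q : ℝ) ^ (ε1 / 4)) * (q : ℝ) ^ (1 + ε1 / 2) :=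
          mul_le_mul_of_nonneg_right hY1.2 (hpw _).le
      _ = x * (q : ℝ) ^ (1 + 3 * ε1 / 4) := by
          rw [mul_assoc, ← Real.rpow_add hqpos]
          congr 2
          ring
      _ ≤ Y' := hY'1.1
  have hone : 1 ≤ (q : ℝ) ^ (1 + ε1 / 2) := Real.one_le_rpow hq1 (by linarith)
  have hYY2 : Y ≤ Y' := by nlinarith
  have hY'pos : 0 < Y' := hYpos.trans_le hYY2
  have hY'B : Y' ≤ (q : ℝ) ^ (B + 2) := by
    calc Y' ≤ x * (q : ℝ) ^ (1 + ε1) := hY'1.2
      _ ≤ (q : ℝ) ^ B * (q : ℝ) ^ (2 : ℝ) := by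
          apply mul_le_mul hxB _ (hpw _).le (hpw _).le
          exact Real.rpow_le_rpow_of_exponent_le hq1 (by linarith)
      _ = (q : ℝ) ^ (B + 2) := (Real.rpow_add hqpos _ _).symm
  have key := hq₁ q hq hqq1 Y Y' (hx.trans hY1.1) hYY hY'B S hS hSc
  rw [Finset.sum_add_distrib, Finset.sum_add_distrib, hsumV Y Y' hYpos hYY2, ← hL] at key
  have k1 : (∫ v in Y..Y', F v) ≤ V := by
    rw [hV]
    exact intervalIntegral.integral_mono_interval hY1.1 hYY2 (hY'1.2.trans (by rw [hX]; exact hmono _ _ (by linarith)))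
      (Eventually.of_forall hF0) (hFi x X hx0 hxX)
  have hG : ∀ v : ℝ, 0 < v → ∑ χ ∈ S, ‖ps χ v‖ ^ 2 / v = F v * v := by
    intro v hv
    rw [hF, Finset.sum_mul]
    refine Finset.sum_congr rfl fun χ _ => ?_
    field_simp
  rw [hG Y hYpos, hG Y' hY'pos] at key
  have k2 : 2 * M ≤ V + 1 := by
    have h16 : 16 ≤ ε1 * L := by
      have : 16 / ε1 ≤ L := by linarith
      rw [div_le_iff₀ e0] at this
      linarith
    rw [hM, mul_div_assoc', div_le_iff₀ (by positivity)]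
    nlinarith
  have hφ : (1 : ℝ) ≤ Nat.totient q := by
    exact_mod_cast Nat.totient_pos.2 hq.pos
  have k3 : 2 ≤ c * Nat.totient q * L ^ 2 := by
    have h2 : 2 / c ≤ L := by linarith
    rw [div_le_iff₀ hc] at h2
    have h3 : L ≤ L ^ 2 := by nlinarith
    have h4 : 0 ≤ c * L ^ 2 := by positivity
    nlinarith [mul_le_mul_of_nonneg_left h3 hc.le, mul_le_mul_of_nonneg_right hφ h4]
  linarith

theorem two (h : S_V) : T_TWO := by
  intro B ε δ hB hε hδ
  obtain ⟨c, hc, q₁, hq₁⟩ := h B ε (δ / 2) hB hε (by linarith)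
  obtain ⟨q₂, hq₂⟩ := exists_nat_ge (2 / δ + 1)
  refine ⟨c / 2, by positivity, max (max q₁ q₂) 3, ?_⟩
  intro q _ hq hq0 x hx hxB
  classical
  have hqq1 : q₁ ≤ q := le_trans (le_trans (le_max_left _ _) (le_max_left _ _)) hq0
  have hqq2 : (q₂ : ℝ) ≤ q := by exact_mod_cast le_trans (le_trans (le_max_right _ _) (le_max_left _ _)) hq0
  have hqq3 : 3 ≤ q := le_trans (le_max_right _ _) hq0
  have hq3 : (3 : ℝ) ≤ q := by exact_mod_cast hqq3
  have hL : 0 < Real.log q := Real.log_pos (by linarith)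
  have hφ : (Nat.totient q : ℝ) = q - 1 := by
    rw [Nat.totient_prime hq, Nat.cast_sub hq.one_lt.le, Nat.cast_one]
  obtain ⟨W, hW⟩ : ∃ W : DirichletCharacter ℂ q → ℝ, W = fun χ =>
    ∫ v in x..(x * (q : ℝ) ^ (1 + ε)), ‖ps χ v‖ ^ 2 / v ^ 2 := ⟨_, rfl⟩
  obtain ⟨S, hS⟩ : ∃ S, S = (ev q).filter (fun χ => W χ < c / 2 * Real.log q ^ 2) := ⟨_, rfl⟩
  have hcard : (S.card : ℝ) ≤ Nat.totient q := by
    rw [← card_char q]
    exact_mod_cast Finset.card_le_card (Finset.subset_univ S)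
  have hS2 : (S.card : ℝ) < δ / 2 * Nat.totient q := by
    by_contra hcon
    push Not at hcon
    have h1 := hq₁ q hq hqq1 x hx hxB S (by rw [hS]; exact Finset.filter_subset _ _) hcon
    have h2 : ∑ χ ∈ S, ∫ v in x..(x * (q : ℝ) ^ (1 + ε)), ‖ps χ v‖ ^ 2 / v ^ 2 ≤
        ∑ χ ∈ S, c / 2 * Real.log q ^ 2 := by
      refine Finset.sum_le_sum fun χ hχ => ?_
      rw [hS, Finset.mem_filter, hW] at hχ
      exact hχ.2.le
    rw [Finset.sum_const, nsmul_eq_mul] at h2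
    have h3 : (S.card : ℝ) * (c / 2 * Real.log q ^ 2) ≤ Nat.totient q * (c / 2 * Real.log q ^ 2) :=
      mul_le_mul_of_nonneg_right hcard (by positivity)
    have h4 : 0 < (Nat.totient q : ℝ) * (c / 2 * Real.log q ^ 2) := by
      rw [hφ]
      have : (0 : ℝ) < q - 1 := by linarith
      positivity
    nlinarith
  refine ⟨insert 1 S, ?_, ?_⟩
  · have h1 : ((insert 1 S).card : ℝ) ≤ S.card + 1 := by exact_mod_cast Finset.card_insert_le 1 S
    have h2 : 1 ≤ δ / 2 * Nat.totient q := by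
      have h3 : 2 / δ ≤ (q : ℝ) - 1 := by linarith
      rw [hφ]
      rw [div_le_iff₀ hδ] at h3
      linarith
    linarith
  · intro χ hχ hχS
    rw [Finset.mem_insert, not_or] at hχS
    by_contra hcon
    push Not at hcon
    apply hχS.2
    rw [hS, Finset.mem_filter, hW]
    refine ⟨?_, hcon⟩
    unfold ev
    rw [Finset.mem_filter]
    exact ⟨Finset.mem_univ _, hχS.1, hχ⟩

end Pool.Agent.D0H52.MW
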